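import Pool.Agent.LAT.StmtsM

/-!
# Squad LAT, row M_CER: the certificate of the leading minors
-/

set_option autoImplicit false

namespace Pool.Agent.LAT.H10

open Matrix

theorem LB_zero {m : ℕ} (G : Matrix (Fin m) (Fin m) ℤ) : LB G 0 = 1 := by
  ext i j
  simp [LB, Matrix.one_apply]

theorem LB_self {m : ℕ} (G : Matrix (Fin m) (Fin m) ℤ) : LB G m = G := by
  ext i j
  simp [LB]

theorem LB_row {m : ℕ} (G : Matrix (Fin m) (Fin m) ℤ) (c : ℕ) (i j : Fin m)
    (h : ¬ (i : ℕ) < c) : LB G c i j = if i = j then 1 else 0 := by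
  simp [LB, h]

theorem LB_col {m : ℕ} (G : Matrix (Fin m) (Fin m) ℤ) (c : ℕ) (i j : Fin m)
    (h : ¬ (j : ℕ) < c) : LB G c i j = if i = j then 1 else 0 := by
  simp [LB, h]

theorem LB_in {m : ℕ} (G : Matrix (Fin m) (Fin m) ℤ) (c : ℕ) (i j : Fin m)
    (hi : (i : ℕ) < c) (hj : (j : ℕ) < c) : LB G c i j = G i j := by
  simp [LB, hi, hj]

/-- the sum over a row after the index `c` -/
theorem sum_row {m : ℕ} (G : Matrix (Fin m) (Fin m) ℤ) (c : Fin m) (x : Fin m → ℤ)
    (i : Fin m) (h : c < i) : ∑ j, LB G ((c : ℕ) + 1) i j * x j = x i := by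
  have h1 : ∀ j, LB G ((c : ℕ) + 1) i j * x j = if i = j then x j else 0 := by
    intro j
    rw [LB_row G _ i j (by have := Fin.lt_def.1 h; omega)]
    split_ifs <;> simp
  simp [h1]

/-- on vectors supported on the indices `≤ c` the rows `i ≤ c` of the block are those of `G` -/
theorem sum_in {m : ℕ} (G : Matrix (Fin m) (Fin m) ℤ) (c : Fin m) (x : Fin m → ℤ)
    (hx : ∀ j, c < j → x j = 0) (i : Fin m) (h : i ≤ c) :
    ∑ j, LB G ((c : ℕ) + 1) i j * x j = ∑ j, G i j * x j := by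
  refine Finset.sum_congr rfl fun j _ => ?_
  rcases lt_or_ge c j with hj | hj
  · simp [hx j hj]
  · rw [LB_in G _ i j (by have := Fin.le_def.1 h; omega) (by have := Fin.le_def.1 hj; omega)]

theorem adj_sum {m : ℕ} (G : Matrix (Fin m) (Fin m) ℤ) (c : Fin m) (i : Fin m) :
    ∑ j, LB G ((c : ℕ) + 1) i j * (LB G ((c : ℕ) + 1)).adjugate j c =
      if i = c then (LB G ((c : ℕ) + 1)).det else 0 := by
  have h := congrFun (congrFun (Matrix.mul_adjugate (LB G ((c : ℕ) + 1))) i) c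
  rw [Matrix.mul_apply] at h
  rw [h, Matrix.smul_apply, Matrix.one_apply]
  split_ifs <;> simp

theorem adj_supp {m : ℕ} (G : Matrix (Fin m) (Fin m) ℤ) (c j : Fin m) (h : c < j) :
    (LB G ((c : ℕ) + 1)).adjugate j c = 0 := by
  have h1 := sum_row G c (fun k => (LB G ((c : ℕ) + 1)).adjugate k c) j h
  rw [adj_sum G c j, if_neg (ne_of_gt h)] at h1
  exact h1.symm

theorem adj_diag {m : ℕ} (G : Matrix (Fin m) (Fin m) ℤ) (c : Fin m) :
    (LB G ((c : ℕ) + 1)).adjugate c c = (LB G (c : ℕ)).det := by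
  rw [Matrix.adjugate_apply]
  refine Matrix.det_eq_of_forall_row_eq_smul_add_const
    (fun i => if (i : ℕ) < c then G i c else 0) c (by simp) ?_
  intro i j
  rw [LB_row G (c : ℕ) c j (lt_irrefl _)]
  by_cases hic : i = c
  · subst hic
    rw [Matrix.updateRow_self, LB_row G (i : ℕ) i j (lt_irrefl _)]
    simp [Pi.single_apply, eq_comm]
  · rw [Matrix.updateRow_ne hic]
    have hic' : (i : ℕ) ≠ c := fun h => hic (Fin.ext h)
    by_cases hjc : j = c
    · subst hjc
      rw [LB_col G (j : ℕ) i j (lt_irrefl _)]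
      by_cases hi : (i : ℕ) < j
      · rw [LB_in G _ i j (by omega) (by omega)]
        simp [hi, hic]
      · rw [LB_row G _ i j (by omega)]
        simp [hi, hic]
    · have hjc' : (j : ℕ) ≠ c := fun h => hjc (Fin.ext h)
      have e3 : ¬ c = j := fun h => hjc h.symm
      rw [if_neg e3, mul_zero, add_zero]
      by_cases hi : (i : ℕ) < c
      · by_cases hj : (j : ℕ) < c
        · rw [LB_in G _ i j (by omega) (by omega), LB_in G _ i j hi hj]
        · rw [LB_col G _ i j (by omega), LB_col G _ i j hj]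
      · rw [LB_row G _ i j (by omega), LB_row G _ i j hi]

theorem isCert_adj {m : ℕ} (G : Matrix (Fin m) (Fin m) ℤ) :
    IsCert G (fun c => (LB G (c : ℕ)).det) (fun c j => (LB G ((c : ℕ) + 1)).adjugate j c) where
  zero := by simp [LB_zero]
  supp := fun c j h => adj_supp G c j h
  diag := fun c => adj_diag G c
  eq := by
    intro c i h
    have h1 := sum_in G c (fun j => (LB G ((c : ℕ) + 1)).adjugate j c)
      (fun j hj => adj_supp G c j hj) i h
    rw [← h1, adj_sum G c i]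
    simp

theorem cert_step {m : ℕ} (G : Matrix (Fin m) (Fin m) ℤ) (d : Fin (m + 1) → ℤ)
    (u : Fin m → Fin m → ℤ) (h : IsCert G d u) (c j : Fin m) :
    (LB G ((c : ℕ) + 1)).det * u c j = (LB G ((c : ℕ) + 1)).adjugate j c * d c.succ := by
  have h1 : LB G ((c : ℕ) + 1) *ᵥ u c = fun i => if i = c then d c.succ else 0 := by
    funext i
    show ∑ j, LB G ((c : ℕ) + 1) i j * u c j = _
    rcases lt_or_ge c i with hi | hi
    · rw [sum_row G c (u c) i hi, h.supp c i hi, if_neg (ne_of_gt hi)]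
    · rw [sum_in G c (u c) (fun j hj => h.supp c j hj) i hi, h.eq c i hi]
  have h2 : (LB G ((c : ℕ) + 1)).adjugate *ᵥ (LB G ((c : ℕ) + 1) *ᵥ u c) =
      (LB G ((c : ℕ) + 1)).det • u c := by
    rw [Matrix.mulVec_mulVec, Matrix.adjugate_mul, Matrix.smul_mulVec, Matrix.one_mulVec]
  rw [h1] at h2
  have h3 := congrFun h2 j
  have h4 : ((LB G ((c : ℕ) + 1)).adjugate *ᵥ (fun i => if i = c then d c.succ else 0)) j =
      (LB G ((c : ℕ) + 1)).adjugate j c * d c.succ := by
    show ∑ i, (LB G ((c : ℕ) + 1)).adjugate j i * (if i = c then d c.succ else 0) = _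
    simp
  rw [h4] at h3
  rw [h3]
  simp

theorem cert_d {m : ℕ} (G : Matrix (Fin m) (Fin m) ℤ) (hG : ∀ c ≤ m, 1 ≤ (LB G c).det)
    (d : Fin (m + 1) → ℤ) (u : Fin m → Fin m → ℤ) (h : IsCert G d u) :
    ∀ (n : ℕ) (hn : n < m + 1), d ⟨n, hn⟩ = (LB G n).det := by
  intro n
  induction n with
  | zero =>
    intro hn
    rw [LB_zero, Matrix.det_one]
    exact h.zero
  | succ n ih =>
    intro hn
    have hn' : n < m := by omega
    have h1 := cert_step G d u h ⟨n, hn'⟩ ⟨n, hn'⟩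
    rw [adj_diag G ⟨n, hn'⟩, h.diag ⟨n, hn'⟩] at h1
    have h2 : d (Fin.castSucc ⟨n, hn'⟩) = (LB G n).det := ih (by omega)
    rw [h2] at h1
    have h3 : (LB G n).det ≠ 0 := by
      have := hG n (by omega)
      omega
    have h4 : (LB G n).det * (LB G (n + 1)).det = (LB G n).det * d ⟨n + 1, hn⟩ := by
      rw [mul_comm (LB G n).det]
      exact h1
    exact (mul_left_cancel₀ h3 h4).symm

theorem cert_val {m : ℕ} (G : Matrix (Fin m) (Fin m) ℤ) (hG : ∀ c ≤ m, 1 ≤ (LB G c).det)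
    (d : Fin (m + 1) → ℤ) (u : Fin m → Fin m → ℤ) (h : IsCert G d u) :
    (∀ c : Fin (m + 1), d c = (LB G (c : ℕ)).det) ∧
    ∀ c j, u c j = (LB G ((c : ℕ) + 1)).adjugate j c := by
  have h1 : ∀ c : Fin (m + 1), d c = (LB G (c : ℕ)).det := fun c => cert_d G hG d u h c c.2
  refine ⟨h1, fun c j => ?_⟩
  have h2 := cert_step G d u h c j
  have h3 : d c.succ = (LB G ((c : ℕ) + 1)).det := h1 c.succ
  rw [h3, mul_comm] at h2
  have h4 : (LB G ((c : ℕ) + 1)).det ≠ 0 := by
    have := hG ((c : ℕ) + 1) (by have := c.2; omega)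
    omega
  exact mul_right_cancel₀ h4 h2

theorem det_bound {m : ℕ} (A : Matrix (Fin m) (Fin m) ℤ) (X : ℤ) (h : ∀ i j, |A i j| ≤ X) :
    |A.det| ≤ (m.factorial : ℤ) * X ^ m := by
  have h1 := Matrix.det_le (A := A) (abv := AbsoluteValue.abs) (x := X) h
  rw [Fintype.card_fin, nsmul_eq_mul] at h1
  exact h1

theorem LB_bound {m : ℕ} (G : Matrix (Fin m) (Fin m) ℤ) (X : ℤ) (hX : 1 ≤ X)
    (h : ∀ i j, |G i j| ≤ X) (c : ℕ) (i j : Fin m) : |LB G c i j| ≤ X := by
  rw [LB, Matrix.of_apply]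
  split_ifs
  · exact h i j
  · simpa using hX
  · simp; omega

theorem cer : CerStmt := by
  intro m G hG
  refine ⟨⟨_, _, isCert_adj G⟩, ?_, ?_, ?_⟩
  · intro d u h
    obtain ⟨h1, -⟩ := cert_val G hG d u h
    refine ⟨h1, ?_⟩
    rw [h1 (Fin.last m), Fin.val_last, LB_self]
  · intro d u d' u' h h'
    obtain ⟨h1, h2⟩ := cert_val G hG d u h
    obtain ⟨h1', h2'⟩ := cert_val G hG d' u' h'
    refine ⟨funext fun c => by rw [h1, h1'], funext fun c => funext fun j => by rw [h2, h2']⟩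
  · intro X hX hGX d u h
    obtain ⟨h1, h2⟩ := cert_val G hG d u h
    refine ⟨fun c => ?_, fun c j => ?_⟩
    · rw [h1]
      exact det_bound _ X (LB_bound G X hX hGX _)
    · rw [h2, Matrix.adjugate_apply]
      refine det_bound _ X fun i k => ?_
      by_cases hic : i = c
      · subst hic
        rw [Matrix.updateRow_self, Pi.single_apply]
        split_ifs
        · simpa using hX
        · simp; omega
      · rw [Matrix.updateRow_ne hic]
        exact LB_bound G X hX hGX _ i k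

end Pool.Agent.LAT.H10
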