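import Pool.Agent.LAT.StmtsC

/-!
# Squad LAT, row QMK: the theorem of Minkowski for a quotient
-/

set_option autoImplicit false

namespace Pool.Agent.LAT.H10

open Matrix

section

variable {m : ℕ} {ι κ : Type}

/-- the real matrix of a family of integer vectors -/
noncomputable def rm (v : ι → Fin m → ℤ) : Matrix ι (Fin m) ℝ :=
  Matrix.of fun i j => (v i j : ℝ)

theorem cast_gd (hB : BasStmt) [Fintype ι] [DecidableEq ι] (v : ι → Fin m → ℤ)
    (hv : LinearIndependent ℤ v) (M : Submodule ℤ (Fin m → ℤ))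
    (hM : Submodule.span ℤ (Set.range v) = M) : (gd M : ℝ) = (rm v * (rm v)ᴴ).det := by
  subst hM
  have h1 := hB m (Submodule.span ℤ (Set.range v)) _ (Module.Basis.span hv)
  have h2 : (fun i => ((Module.Basis.span hv i : Submodule.span ℤ (Set.range v)) :
      Fin m → ℤ)) = v := by
    funext i
    rw [Module.Basis.span_apply]
  rw [h2] at h1
  rw [← h1, Int.cast_det]
  congr 1
  apply Matrix.ext
  intro i j
  rw [Matrix.map_apply, Matrix.mul_apply]
  show ((v i ⬝ᵥ v j : ℤ) : ℝ) = _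
  unfold dotProduct
  push_cast
  refine Finset.sum_congr rfl fun l _ => ?_
  rfl

theorem psd [Finite ι] (v : ι → Fin m → ℤ) : (rm v * (rm v)ᴴ).PosSemidef :=
  Matrix.posSemidef_self_mul_conjTranspose _

theorem rm_elim (a : ι → Fin m → ℤ) (c : κ → Fin m → ℤ) :
    rm (Sum.elim a c) * (rm (Sum.elim a c))ᴴ =
      Matrix.fromBlocks (rm a * (rm a)ᴴ) (rm a * (rm c)ᴴ) (rm a * (rm c)ᴴ)ᴴ (rm c * (rm c)ᴴ) := by
  rw [Matrix.conjTranspose_mul, Matrix.conjTranspose_conjTranspose]
  apply Matrix.ext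
  rintro (i | i) (j | j) <;> rfl

theorem range_elim (a : ι → Fin m → ℤ) (c : κ → Fin m → ℤ) :
    Submodule.span ℤ (Set.range (Sum.elim a c)) =
      Submodule.span ℤ (Set.range a) ⊔ Submodule.span ℤ (Set.range c) := by
  rw [← Submodule.span_union, Set.Sum.elim_range]

end

theorem qmk (exb : ExbStmt) (bas : BasStmt) (pos : PosStmt) (mnk : MnkStmt) : QmkStmt := by
  classical
  intro m D N M hD hle hne hsat hphi
  obtain ⟨s, k, a, c, hli, hN, hM, hs, hsk⟩ := exb m N M hle hsat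
  -- `k` is positive
  have hk : 0 < k := by
    rcases Nat.eq_zero_or_pos k with h0 | h0
    · exfalso
      subst h0
      refine hne ?_
      rw [← hN, ← hM, range_elim]
      have h1 : Set.range c = ∅ := Set.range_eq_empty c
      rw [h1, Submodule.span_empty, sup_bot_eq]
    · exact h0
  have hla : LinearIndependent ℤ a := by
    have h := hli.comp Sum.inl Sum.inl_injective
    exact h
  have hgN := pos.2.1 m N
  have hgM := pos.2.1 m M
  have hgNr : (1 : ℝ) ≤ gd N := by exact_mod_cast hgN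
  have hgMr : (1 : ℝ) ≤ gd M := by exact_mod_cast hgM
  set G₁ := rm a * (rm a)ᴴ with hG₁
  set H := rm a * (rm c)ᴴ with hH
  set G₂ := rm c * (rm c)ᴴ with hG₂
  have d1 : (gd N : ℝ) = G₁.det := cast_gd bas a hla N hN
  have hunit : IsUnit G₁.det := by
    rw [← d1]
    exact (by linarith : (gd N : ℝ) ≠ 0).isUnit
  let _ : Invertible G₁ := Matrix.invertibleOfIsUnitDet _ hunit
  have p1 : G₁.PosDef := (psd a).posDef_iff_det_ne_zero.2 hunit.ne_zero
  set S := G₂ - Hᴴ * G₁⁻¹ * H with hS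
  have d2 : (gd M : ℝ) = gd N * S.det := by
    rw [cast_gd bas (Sum.elim a c) hli M hM, rm_elim, Matrix.det_fromBlocks₁₁,
      Matrix.invOf_eq_nonsing_inv, d1]
  have hSpsd : S.PosSemidef := by
    refine (Matrix.PosDef.fromBlocks₁₁ H G₂ p1).1 ?_
    rw [← rm_elim]
    exact psd _
  have hSdet : S.det ≠ 0 := by
    intro h0
    rw [h0, mul_zero] at d2
    linarith
  have hSpd : S.PosDef := hSpsd.posDef_iff_det_ne_zero.2 hSdet
  -- the determinant of `S`
  have hDr : (0 : ℝ) < D := by exact_mod_cast hD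
  have hdet : S.det ≤ (D : ℝ) ^ k := by
    have h1 : (gd M : ℚ) * (D : ℚ) ^ rk N ≤ (D : ℚ) ^ rk M * gd N := by
      unfold ph at hphi
      have hn : (0 : ℚ) < gd N := by exact_mod_cast (show (0 : ℤ) < gd N by omega)
      have hm : (0 : ℚ) < gd M := by exact_mod_cast (show (0 : ℤ) < gd M by omega)
      rw [div_le_div_iff₀ hn hm] at hphi
      rw [mul_comm]
      exact hphi
    have h2 : (gd M : ℝ) * (D : ℝ) ^ rk N ≤ (D : ℝ) ^ rk M * gd N := by exact_mod_cast h1
    rw [← hsk, ← hs, pow_add, d2] at h2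
    have h3 : (0 : ℝ) < (D : ℝ) ^ s * gd N := by positivity
    have h4 : ((D : ℝ) ^ s * gd N) * S.det ≤ ((D : ℝ) ^ s * gd N) * (D : ℝ) ^ k := by
      calc ((D : ℝ) ^ s * gd N) * S.det = gd N * S.det * (D : ℝ) ^ s := by ring
        _ ≤ (D : ℝ) ^ s * (D : ℝ) ^ k * gd N := h2
        _ = _ := by ring
    exact le_of_mul_le_mul_left h4 h3
  obtain ⟨z, hz, hzm⟩ := mnk k S hk hSpd
  set zr : Fin k → ℝ := fun i => (z i : ℝ) with hzr
  have hzS : zr ⬝ᵥ (S *ᵥ zr) ≤ k * D := by
    have h0 : 0 ≤ zr ⬝ᵥ (S *ᵥ zr) := by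
      have h := hSpsd.dotProduct_mulVec_nonneg zr
      rwa [star_trivial] at h
    have h1 : (zr ⬝ᵥ (S *ᵥ zr)) ^ k ≤ ((k : ℝ) * D) ^ k := by
      rw [mul_pow]
      exact hzm.trans (mul_le_mul_of_nonneg_left hdet (by positivity))
    exact (pow_le_pow_iff_left₀ h0 (by positivity) hk.ne').1 h1
  -- the vector
  set w : Fin m → ℤ := ∑ j, z j • c j with hw
  have hwM : w ∈ M := by
    rw [← hM]
    refine Submodule.sum_mem _ fun j _ => Submodule.smul_mem _ _ (Submodule.subset_span ?_)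
    exact ⟨Sum.inr j, rfl⟩
  -- relations
  have hrel : ∀ (x : Fin s → ℤ) (y : ℤ), ∑ i, x i • a i + y • w = 0 → x = 0 ∧ y = 0 := by
    intro x y h
    have h1 : ∑ i, (Sum.elim x (fun j => y * z j) : Fin s ⊕ Fin k → ℤ) i •
        (Sum.elim a c : Fin s ⊕ Fin k → Fin m → ℤ) i = 0 := by
      rw [Fintype.sum_sum_type]
      simp only [Sum.elim_inl, Sum.elim_inr]
      rw [← h, hw, Finset.smul_sum]
      congr 1
      refine Finset.sum_congr rfl fun j _ => ?_
      rw [mul_smul]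
    have h2 := Fintype.linearIndependent_iff.1 hli _ h1
    refine ⟨funext fun i => h2 (Sum.inl i), ?_⟩
    obtain ⟨j, hj⟩ : ∃ j, z j ≠ 0 := by
      by_contra h3
      push Not at h3
      exact hz (funext h3)
    have h3 : y * z j = 0 := h2 (Sum.inr j)
    exact (mul_eq_zero.1 h3).resolve_right hj
  have hwN : w ∉ N := by
    intro h
    rw [← hN, Submodule.mem_span_range_iff_exists_fun] at h
    obtain ⟨x, hx⟩ := h
    have h1 := (hrel x (-1) (by rw [hx, neg_smul, one_smul, add_neg_cancel])).2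
    omega
  refine ⟨w, hwM, hwN, ?_⟩
  -- the Gram determinant
  have hli' : LinearIndependent ℤ (Sum.elim a (fun _ : Unit => w)) := by
    rw [Fintype.linearIndependent_iff]
    intro g hg
    rw [Fintype.sum_sum_type] at hg
    simp only [Sum.elim_inl, Sum.elim_inr, Finset.univ_unique, Finset.sum_singleton] at hg
    have h1 := hrel _ _ hg
    rintro (i | i)
    · exact congrFun h1.1 i
    · exact h1.2
  have hsp : Submodule.span ℤ (Set.range (Sum.elim a (fun _ : Unit => w))) =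
      N ⊔ Submodule.span ℤ {w} := by
    rw [range_elim, hN, Set.range_const]
  have d3 := cast_gd bas (Sum.elim a (fun _ : Unit => w)) hli' _ hsp
  let Z : Matrix Unit (Fin k) ℝ := Matrix.of fun _ j => zr j
  have hRw : rm (fun _ : Unit => w) = Z * rm c := by
    apply Matrix.ext
    intro i j
    rw [Matrix.mul_apply]
    show ((w j : ℤ) : ℝ) = ∑ l, zr l * (c l j : ℝ)
    rw [hw, Finset.sum_apply]
    push_cast
    refine Finset.sum_congr rfl fun l _ => ?_
    rw [Pi.smul_apply, smul_eq_mul]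
    push_cast
    rfl
  have hZ : rm (fun _ : Unit => w) * (rm (fun _ : Unit => w))ᴴ -
      (rm a * (rm (fun _ : Unit => w))ᴴ)ᴴ * G₁⁻¹ * (rm a * (rm (fun _ : Unit => w))ᴴ) =
      Z * S * Zᴴ := by
    rw [hRw, hS, hG₂, hH]
    simp only [Matrix.conjTranspose_mul, Matrix.conjTranspose_conjTranspose, Matrix.mul_sub,
      Matrix.sub_mul, Matrix.mul_assoc]
  have hZd : (Z * S * Zᴴ).det = zr ⬝ᵥ (S *ᵥ zr) := by
    rw [Matrix.det_unique, Matrix.mul_assoc, Matrix.mul_apply]
    unfold dotProduct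
    refine Finset.sum_congr rfl fun i _ => ?_
    rw [Matrix.mul_apply]
    rfl
  rw [rm_elim, Matrix.det_fromBlocks₁₁, Matrix.invOf_eq_nonsing_inv, hZ, hZd, ← d1] at d3
  have hrk : rk M - rk N = k := by omega
  rw [hrk]
  have h5 : ((gd (N ⊔ Submodule.span ℤ {w}) : ℤ) : ℝ) ≤ ((((k : ℕ) : ℤ) * D * gd N : ℤ) : ℝ) := by
    rw [d3]
    push_cast
    calc (gd N : ℝ) * (zr ⬝ᵥ (S *ᵥ zr)) ≤ (gd N : ℝ) * (k * D) :=
          mul_le_mul_of_nonneg_left hzS (by linarith)
      _ = (k : ℝ) * D * gd N := by ring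
  exact_mod_cast h5

end Pool.Agent.LAT.H10
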